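import Mathlib
import Pool.Agent.Helper6.ER.Final

/-!
Long runs of integers with a small prime factor: no integer of the run can be divisible by almost
all of the primes that are used.
-/

namespace Pool.Agent.Helper6.Retired.MP_2edd02_nt.CommonMultiple

/-- `n ∈ A(x,k)`: every one of `n+1, …, n+k` has a prime divisor `p ≤ x`. -/
def InA (x k n : ℕ) : Prop := ∀ i ∈ Finset.Icc 1 k, ∃ p : ℕ, p.Prime ∧ p ≤ x ∧ p ∣ n + i

/-- The primes `Q < p ≤ y` which divide `m`, together with the primes `y < p ≤ x` which do not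
divide `m`. -/
def Exc (x y Q m : ℕ) : Finset ℕ :=
  (Finset.range (x + 1)).filter
    (fun p => p.Prime ∧ Q < p ∧ ((p ≤ y ∧ p ∣ m) ∨ (y < p ∧ ¬ p ∣ m)))

/-- There are absolute constants `C, c₀, c₁ > 0` such that for every `Q`, all `x ≥ x₀(Q)`,
`(log x)^C ≤ y ≤ x^(c₀)` and `x (log x)^C ≤ k ≤ x²`: if `n ∈ A(x,k)` then for every integer
`m ∈ [n, n+k]` the sum of `(1/p) log x / log (k/p)` over `Exc x y Q m` is at least
`c₁ min (1, log (k/x) / log y)`. -/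
theorem result :
    ∃ C c₀ c₁ : ℝ, 0 < C ∧ 0 < c₀ ∧ 0 < c₁ ∧ ∀ Q : ℕ, ∃ x₀ : ℕ, ∀ x ≥ x₀, ∀ y k n m : ℕ,
      (Real.log x) ^ C ≤ y → (y : ℝ) ≤ (x : ℝ) ^ c₀ →
      x * (Real.log x) ^ C ≤ k → k ≤ x ^ 2 → InA x k n → n ≤ m → m ≤ n + k →
      c₁ * min 1 (Real.log ((k : ℝ) / x) / Real.log y) ≤
        ∑ p ∈ Exc x y Q m, (1 / (p : ℝ)) * (Real.log x / Real.log ((k : ℝ) / p)) := by
  obtain ⟨C, c₀, c₁, hC, hc₀, hc₁, h⟩ := Pool.Agent.Helper6.ER.exists_A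
  exact ⟨C, c₀, c₁, hC, hc₀, hc₁, h⟩

end Pool.Agent.Helper6.Retired.MP_2edd02_nt.CommonMultiple
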