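import Mathlib
import Pool.Agent.Helper6.ER.Final

/-!
The limit of the Erdős–Rankin method for covering `k` consecutive integers by residue classes
modulo the primes `p ≤ x`.
-/

namespace Pool.Agent.Helper6.Retired.MP_2edd02_nt.ErdosRankinLimit

/-- `n ∈ A(x,k)`: every one of `n+1, …, n+k` has a prime divisor `p ≤ x`. -/
def InA (x k n : ℕ) : Prop := ∀ i ∈ Finset.Icc 1 k, ∃ p : ℕ, p.Prime ∧ p ≤ x ∧ p ∣ n + i

/-- There are absolute constants `C, c > 0` such that for every `Q` and all `x ≥ x₀(Q)`: if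
`(log x)^C ≤ y ≤ x^c` and `x^(1-c) ≤ z ≤ x`, if `n ∈ A(x,k)`, and if some integer
`m ∈ [n, n+k]` is divisible by every prime in `(y, z]` and by no prime in `(Q, y]`, then
`k ≤ x exp (C (log log x + log (x/z) + √(log y (1 + log (x/z)))))`. -/
theorem result :
    ∃ C c : ℝ, 0 < C ∧ 0 < c ∧ ∀ Q : ℕ, ∃ x₀ : ℕ, ∀ x ≥ x₀, ∀ y z k n m : ℕ,
      (Real.log x) ^ C ≤ y → (y : ℝ) ≤ (x : ℝ) ^ c → (x : ℝ) ^ (1 - c) ≤ z → z ≤ x →
      InA x k n → n ≤ m → m ≤ n + k →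
      (∀ p : ℕ, p.Prime → Q < p → p ≤ y → ¬ p ∣ m) →
      (∀ p : ℕ, p.Prime → y < p → p ≤ z → p ∣ m) →
      (k : ℝ) ≤ x * Real.exp (C * (Real.log (Real.log x) + Real.log ((x : ℝ) / z) +
        Real.sqrt (Real.log y * (1 + Real.log ((x : ℝ) / z))))) := by
  obtain ⟨C, c, hC, hc, h⟩ := Pool.Agent.Helper6.ER.exists_B
  exact ⟨C, c, hC, hc, h⟩

end Pool.Agent.Helper6.Retired.MP_2edd02_nt.ErdosRankinLimit
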